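import Pool.Agent.K4W.StmtsW

/-!
Squad K4W, row WFB: the characteristic polynomial of an element of a finite field.
-/

set_option autoImplicit false

open Polynomial

namespace Pool.Agent.K4W.H33

theorem aeval_pow_p {p : ℕ} [Fact p.Prime] {K : Type} [Field K] [Algebra (ZMod p) K]
    (q : (ZMod p)[X]) (x : K) (i : ℕ) : aeval (x ^ (p ^ i)) q = (aeval x q) ^ (p ^ i) := by
  induction i with
  | zero => simp
  | succ i ih =>
    have e : x ^ (p ^ (i + 1)) = (x ^ (p ^ i)) ^ p := by rw [← pow_mul, pow_succ]
    rw [e, ← expand_aeval, ZMod.expand_card, map_pow, ih, ← pow_mul, pow_succ]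

theorem in_range {p : ℕ} [Fact p.Prime] {K : Type} [Field K] [Algebra (ZMod p) K] {c : K}
    (hc : c ^ p = c) : c ∈ Set.range (algebraMap (ZMod p) K) := by
  classical
  by_contra hn
  have hp : p.Prime := Fact.out
  have hm : (X ^ p - X : K[X]).natDegree = p := FiniteField.X_pow_card_sub_X_natDegree_eq K hp.one_lt
  have h0 : (X ^ p - X : K[X]) ≠ 0 := FiniteField.X_pow_card_sub_X_ne_zero K hp.one_lt
  have hsub : insert c ((Finset.univ : Finset (ZMod p)).image (algebraMap (ZMod p) K)) ⊆
      (X ^ p - X : K[X]).roots.toFinset := by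
    intro y hy
    rw [Multiset.mem_toFinset, mem_roots h0, IsRoot.def]
    rw [Finset.mem_insert, Finset.mem_image] at hy
    rcases hy with rfl | ⟨a, -, rfl⟩
    · simp [hc]
    · rw [eval_sub, eval_pow, eval_X, ← map_pow, ZMod.pow_card, sub_self]
  have h1 := Finset.card_le_card hsub
  rw [Finset.card_insert_of_notMem, Finset.card_image_of_injective _ (algebraMap (ZMod p) K).injective,
    Finset.card_univ, ZMod.card] at h1
  · have h2 := (Multiset.toFinset_card_le _).trans (card_roots' (X ^ p - X : K[X]))
    rw [hm] at h2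
    omega
  · intro h
    rw [Finset.mem_image] at h
    obtain ⟨a, -, ha⟩ := h
    exact hn ⟨a, ha⟩

theorem wfb : WfbStmt := by
  intro p _ K _ _ _ r hr x
  classical
  have hp : p.Prime := Fact.out
  have : CharP K p := charP_of_injective_algebraMap (algebraMap (ZMod p) K).injective p
  have : ExpChar K p := ExpChar.prime hp
  have hcard : Fintype.card K = p ^ r := by
    rw [Module.card_eq_pow_finrank (K := ZMod p), ZMod.card, hr]
  have hx : x ^ (p ^ r) = x := by rw [← hcard]; exact FiniteField.pow_card x
  obtain ⟨H, hH⟩ : ∃ H : K[X], H = ∏ i ∈ Finset.range r, (X - C (x ^ (p ^ i))) := ⟨_, rfl⟩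
  have hHm : H.Monic := by rw [hH]; exact monic_prod_of_monic _ _ (fun i _ => monic_X_sub_C _)
  have hHd : H.natDegree = r := by
    rw [hH, natDegree_prod_of_monic _ _ (fun i _ => monic_X_sub_C _),
      Finset.sum_congr rfl (fun i _ => natDegree_X_sub_C (x ^ (p ^ i)))]
    simp
  have hHf : H.map (frobenius K p) = H := by
    have e1 : H.map (frobenius K p) = ∏ i ∈ Finset.range r, (X - C (x ^ (p ^ (i + 1)))) := by
      rw [hH, Polynomial.map_prod]
      refine Finset.prod_congr rfl fun i _ => ?_
      rw [Polynomial.map_sub, map_X, map_C, frobenius_def, ← pow_mul, pow_succ]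
    have e2 := Finset.prod_range_succ (fun i => (X - C (x ^ (p ^ i)) : K[X])) r
    rw [Finset.prod_range_succ', hx, pow_zero, pow_one, ← e1, ← hH] at e2
    exact mul_right_cancel₀ (X_sub_C_ne_zero x) e2
  have hlift : H ∈ lifts (algebraMap (ZMod p) K) := by
    rw [lifts_iff_coeff_lifts]
    intro n
    apply in_range
    have := congrArg (fun g => coeff g n) hHf
    simpa [coeff_map, frobenius_def] using this
  obtain ⟨c, hc, hcd, hcm⟩ := lifts_and_natDegree_eq_and_monic hlift hHm
  obtain ⟨P, hP⟩ : ∃ P : (ZMod p)[X], P = minpoly (ZMod p) x := ⟨_, rfl⟩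
  have hint : IsIntegral (ZMod p) x := Algebra.IsIntegral.isIntegral x
  have hPm : P.Monic := hP ▸ minpoly.monic hint
  have key : ∀ q : (ZMod p)[X], Irreducible q → q.Monic → q ∣ c → q = P := by
    intro q hq hqm hqc
    have h1 : q.map (algebraMap (ZMod p) K) ∣ H := by
      rw [← hc]; exact Polynomial.map_dvd _ hqc
    have hnu : ¬ IsUnit (q.map (algebraMap (ZMod p) K)) := by
      intro hu
      have := natDegree_eq_zero_of_isUnit hu
      rw [natDegree_map] at this
      exact hq.natDegree_pos.ne' this
    have hn0 : q.map (algebraMap (ZMod p) K) ≠ 0 := (hqm.map _).ne_zero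
    obtain ⟨g, hg, hgd⟩ := WfDvdMonoid.exists_irreducible_factor hnu hn0
    have h2 := hgd.trans h1
    rw [hH] at h2
    obtain ⟨i, -, hi⟩ := hg.prime.exists_mem_finset_dvd h2
    have h3 := (hg.dvd_symm (irreducible_X_sub_C _) hi).trans hgd
    rw [dvd_iff_isRoot, IsRoot.def, eval_map_algebraMap, aeval_pow_p] at h3
    have h4 : aeval x q = 0 := by
      have := pow_pos hp.pos i
      exact (pow_eq_zero_iff this.ne').mp h3
    rw [hP]
    exact minpoly.eq_of_irreducible_of_monic hq h4 hqm
  have hc0 : c ≠ 0 := hcm.ne_zero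
  have hrep : UniqueFactorizationMonoid.normalizedFactors c =
      Multiset.replicate (Multiset.card (UniqueFactorizationMonoid.normalizedFactors c)) P := by
    rw [Multiset.eq_replicate]
    refine ⟨rfl, fun q hq => ?_⟩
    have h1 := UniqueFactorizationMonoid.irreducible_of_normalized_factor q hq
    have h2 := UniqueFactorizationMonoid.dvd_of_mem_normalizedFactors hq
    have h3 := UniqueFactorizationMonoid.normalize_normalized_factor q hq
    have h4 : q.Monic := by rw [← h3]; exact monic_normalize h1.ne_zero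
    exact key q h1 h4 h2
  have hass := UniqueFactorizationMonoid.prod_normalizedFactors hc0
  rw [hrep, Multiset.prod_replicate] at hass
  obtain ⟨k, hk⟩ : ∃ k, k = Multiset.card (UniqueFactorizationMonoid.normalizedFactors c) := ⟨_, rfl⟩
  rw [← hk] at hass
  have hcP : P ^ k = c := eq_of_monic_of_associated (hPm.pow k) hcm hass
  refine ⟨k, ?_, ?_⟩
  · rw [← hP, ← hPm.natDegree_pow, hcP, hcd, hHd]
  · rw [← hP, hcP, hc, hH]

end Pool.Agent.K4W.H33
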